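import Mathlib
import Pool.Agent.H93.Star3

namespace Pool.Agent.Results.MP_a8a0a5_an.SepDual

theorem result (E : Type*) [NormedAddCommGroup E] [NormedSpace ℝ E] [CompleteSpace E]
    [TopologicalSpace.SeparableSpace E] [TopologicalSpace.SeparableSpace (StrongDual ℝ E)]
    (hinf : ¬ FiniteDimensional ℝ E) (ι : Type*) (c : ι → E) (r : ι → ℝ) (hr : ∀ i, 0 < r i)
    (hcov : (⋃ i, Metric.closedBall (c i) (r i)) = Set.univ) :
    ∃ i, {j : ι | (Metric.closedBall (c i) (r i) ∩
      Metric.closedBall (c j) (r j)).Nonempty}.Infinite := by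
  by_contra h
  push Not at h
  exact Pool.Agent.H93.Star.sepdual hinf Pool.Agent.H93.Star.dense_SM c r hr h
    fun x => Set.mem_iUnion.1 (hcov ▸ Set.mem_univ x)

end Pool.Agent.Results.MP_a8a0a5_an.SepDual
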